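import Pool.Agent.K3h78.PN.Stm

/-! Brick SMALL of project PN (helper78): a transcendence basis of small elements of a complete field. -/

set_option autoImplicit false
set_option maxHeartbeats 400000

open Pool.Agent.K3h85.BS

namespace Pool.Agent.K3h35.PN

theorem t_SMALL : Pool.Agent.K3h78.PN.S_SMALL := by
  intro L Ω K _ _ _ _ _ _ _ _ hK p hp hpn s _ _ n hn δ hδ
  have hcl : IsAlgClosed Ω := IsAlgClosure.isAlgClosed L
  have halgL : Algebra.IsAlgebraic L Ω := IsAlgClosure.isAlgebraic
  have hinj : Function.Injective (algebraMap L Ω) := (algebraMap L Ω).injective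
  have hcharΩ : CharZero Ω := charZero_of_injective_algebraMap hinj
  have hcharK : CharZero K := (algebraMap K Ω).charZero
  set S : Set Ω := Set.range (algebraMap L Ω) with hS
  have hs : Algebra.IsAlgebraic (Algebra.adjoin K S) Ω := by
    constructor
    intro z
    obtain ⟨q, hq, hqz⟩ := halgL.isAlgebraic z
    let i : L →+* Algebra.adjoin K S := (algebraMap L Ω).codRestrict (Algebra.adjoin K S).toSubring
      fun l => Algebra.subset_adjoin ⟨l, rfl⟩
    refine ⟨q.map i, (Polynomial.map_ne_zero_iff i.injective).2 hq, ?_⟩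
    rw [Polynomial.aeval_def, Polynomial.eval₂_map]
    exact hqz
  obtain ⟨t, htS, ht⟩ := exists_isTranscendenceBasis_subset (R := K) S
  have hLc : Cardinal.continuum ≤ Cardinal.mk L := continuum_le_cardinal_of_nontriviallyNormedField L
  have hΩc : Cardinal.continuum ≤ Cardinal.mk Ω := hLc.trans (Cardinal.mk_le_of_injective hinj)
  have h1 : Cardinal.mk Ω = Cardinal.mk t :=
    IsAlgClosed.cardinal_eq_cardinal_transcendence_basis_of_aleph0_lt' _ ht hK
      (Cardinal.aleph0_lt_continuum.trans_le hΩc)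
  have hinf : Cardinal.aleph0 ≤ Cardinal.mk t := by
    rw [← h1]
    exact Cardinal.aleph0_le_continuum.trans hΩc
  have hNn : Nonempty (Fin n) := ⟨⟨0, hn⟩⟩
  obtain ⟨e⟩ : Nonempty ((t × s) × Fin n ≃ t) := by
    rw [← Cardinal.eq, ← Cardinal.mul_def, ← Cardinal.mul_def]
    have hs1 : Cardinal.mk s ≤ Cardinal.mk t :=
      (Cardinal.lt_aleph0_of_finite s).le.trans hinf
    have hn1 : Cardinal.mk (Fin n) ≤ Cardinal.mk t :=
      (Cardinal.lt_aleph0_of_finite (Fin n)).le.trans hinf
    rw [Cardinal.mul_eq_left hinf hs1 (Cardinal.mk_ne_zero s),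
      Cardinal.mul_eq_left hinf hn1 (Cardinal.mk_ne_zero (Fin n))]
  have hl : ∀ z, ∃ l : L, algebraMap L Ω l = (e z : Ω) := fun z => htS (e z).2
  choose l hl using hl
  have hN : ∀ z, ∃ N : ℕ, ‖(p : L) ^ N * l z‖ < δ := by
    intro z
    have h2 : Filter.Tendsto (fun N : ℕ => ‖(p : L)‖ ^ N * ‖l z‖) Filter.atTop (nhds (0 * ‖l z‖)) :=
      (tendsto_pow_atTop_nhds_zero_of_lt_one (norm_nonneg _) hpn).mul_const _
    rw [zero_mul] at h2
    obtain ⟨N, hN⟩ := (h2.eventually (gt_mem_nhds hδ)).exists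
    refine ⟨N, ?_⟩
    rw [norm_mul, norm_pow]
    exact hN
  choose N hN using hN
  have hp0 : (p : K) ≠ 0 := Nat.cast_ne_zero.2 hp
  have hb : ∀ z, algebraMap L Ω ((p : L) ^ N z * l z) = algebraMap K Ω ((p : K) ^ N z) * (e z : Ω) := by
    intro z
    rw [map_mul, map_pow, map_natCast, map_pow, map_natCast, hl]
  refine ⟨t, fun z => (p : L) ^ N z * l z, hΩc.trans_eq h1, hN, ?_⟩
  have hr : IsTranscendenceBasis K fun z => ((e z : t) : Ω) := by
    rw [isTranscendenceBasis_iff_algebraicIndependent_isAlgebraic]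
    refine ⟨ht.1.comp e e.injective, ?_⟩
    have h2 : Set.range (fun z => ((e z : t) : Ω)) = Set.range ((↑) : t → Ω) := by
      ext z
      constructor
      · rintro ⟨y, rfl⟩
        exact ⟨e y, rfl⟩
      · rintro ⟨y, rfl⟩
        exact ⟨e.symm y, by simp⟩
    rw [h2]
    exact ht.isAlgebraic
  simp only [hb]
  rw [isTranscendenceBasis_iff_algebraicIndependent_isAlgebraic]
  constructor
  · have h3 := hr.1.polynomial_aeval_of_transcendental
      (f := fun z => Polynomial.C ((p : K) ^ N z) * Polynomial.X) (fun z => by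
        have h4 := (Polynomial.transcendental_X (R := K)).aeval
          (Polynomial.C ((p : K) ^ N z) * Polynomial.X)
          (by rw [Polynomial.natDegree_C_mul_X _ (pow_ne_zero _ hp0)]; exact one_ne_zero)
          (mem_nonZeroDivisors_of_ne_zero (by
            rw [Polynomial.leadingCoeff_ne_zero]
            exact mul_ne_zero (Polynomial.C_ne_zero.2 (pow_ne_zero _ hp0)) Polynomial.X_ne_zero))
        rwa [Polynomial.aeval_X_left_apply] at h4)
    have e3 : (fun z => Polynomial.aeval ((e z : t) : Ω)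
        (Polynomial.C ((p : K) ^ N z) * Polynomial.X)) =
        fun z => algebraMap K Ω ((p : K) ^ N z) * (e z : Ω) := by
      funext z
      rw [map_mul, Polynomial.aeval_C, Polynomial.aeval_X]
    rw [e3] at h3
    exact h3
  · refine ⟨fun z => isAlgebraic_mono (k₁ := K) (k₂ := K) ?_ (hr.isAlgebraic.isAlgebraic z)⟩
    have h2 : Algebra.adjoin K (Set.range fun z => ((e z : t) : Ω)) ≤
        Algebra.adjoin K (Set.range fun z => algebraMap K Ω ((p : K) ^ N z) * (e z : Ω)) := by
      refine Algebra.adjoin_le ?_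
      rintro _ ⟨z, rfl⟩
      have h3 : ((e z : t) : Ω) = algebraMap K Ω (((p : K) ^ N z)⁻¹) *
          (algebraMap K Ω ((p : K) ^ N z) * (e z : Ω)) := by
        rw [← mul_assoc, ← map_mul, inv_mul_cancel₀ (pow_ne_zero _ hp0), map_one, one_mul]
      show ((e z : t) : Ω) ∈ _
      rw [h3]
      exact Subalgebra.mul_mem _ (Subalgebra.algebraMap_mem _ _) (Algebra.subset_adjoin ⟨z, rfl⟩)
    exact fun z hz => h2 hz

end Pool.Agent.K3h35.PN
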